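import Pool.Agent.V7H40.MX.Sml
import Pool.Agent.N483.KM.FinS
import Pool.Agent.N483.KM.FinY

/-!
# Conic programs with few equations, mixed cones
-/

set_option autoImplicit false

namespace Pool.Agent.V7H40.MX

open MeasureTheory Set Filter Topology
open scoped ENNReal InnerProductSpace ComplexOrder
open Pool.Agent.R754.KG (E un)
open Pool.Agent.R755.KS (KM km_profile)
open Pool.Agent.Y506.PV (CcW ind)
open Pool.Agent.Y506.RG (Star)
open Pool.Agent.R751.MB (Eu EW VW Adm AP Frame)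
open Pool.Agent.N483.KM (PC Pf wc GC lorgR psdaR gconR gddR cyR cclR gc_mono)

/-- products of Lorentz cones, cones of positive semidefinite matrices and arbitrary cones of
dimension at most `s` -/
inductive MCn (s : ℕ) : ∀ N : ℕ, Set (E N) → Prop
  | lor (k N : ℕ) (e : (E k × E 1) ≃ₗ[ℝ] E N) : MCn s N (e '' {z | ‖z.1‖ ≤ z.2 0})
  | psd (𝕜 : Type) [RCLike 𝕜] (D : ℕ) (ι : Type) [Fintype ι]
      (Φ : Eu ι →ₗ[ℝ] Matrix (Fin D) (Fin D) 𝕜) (N : ℕ) (e : Eu ι ≃ₗ[ℝ] E N) : 1 ≤ D → Frame Φ →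
      MCn s N (e '' {x | (Φ x).PosSemidef})
  | small (N : ℕ) (C : Set (E N)) : N ≤ s → PC C → MCn s N C
  | prod (a b N : ℕ) (e : (E a × E b) ≃ₗ[ℝ] E N) (C : Set (E a)) (C' : Set (E b)) : MCn s a C →
      MCn s b C' → MCn s N (e '' (C ×ˢ C'))

theorem mcn_gc (s : ℕ) : ∃ A : ℝ, 0 < A ∧ ∀ (N : ℕ) (C : Set (E N)), MCn s N C → GC A C := by
  obtain ⟨A1, hA1, H1⟩ := lorgR
  obtain ⟨A2, hA2, H2⟩ := psdaR
  obtain ⟨A3, hA3, H3⟩ := small gddR s
  refine ⟨max A3 (max A1 A2), lt_max_of_lt_left hA3, fun N C h => ?_⟩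
  induction h with
  | lor k N e =>
    have h1 := gc_mono ((le_max_left A1 A2).trans (le_max_right A3 _)) (H1 k (Fin N) e)
    have h2 : {z : Eu (Fin N) | ‖(e.symm z).1‖ ≤ (e.symm z).2 0} = e '' {z | ‖z.1‖ ≤ z.2 0} := by
      ext z
      constructor
      · intro hz
        exact ⟨e.symm z, hz, e.apply_symm_apply z⟩
      · rintro ⟨y, hy, rfl⟩
        simpa using hy
    rwa [h2] at h1
  | psd 𝕜 D ι Φ N e hD hΦ =>
    exact Pool.Agent.N277.KM.t_GLIN ι (Fin N) _ e _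
      (gc_mono ((le_max_right A1 A2).trans (le_max_right A3 _)) (H2 𝕜 D hD ι Φ hΦ))
  | small N C hN hC => exact gc_mono (le_max_left A3 _) (H3 N hN C hC)
  | prod a b N e C C' _ _ ih ih' =>
    exact Pool.Agent.N277.KM.t_GPRD (Fin a) (Fin b) (Fin N) _ e C C'
      (le_max_of_le_left hA3.le) ih ih'

/-- feasible sets of mixed conic programs with at most `q` equations -/
def MPr (s q n : ℕ) (K : Set (E n)) : Prop :=
  ∃ (N : ℕ) (C : Set (E N)) (L : E n →ₗ[ℝ] E N) (w : E N), N ≤ n + q ∧ MCn s N C ∧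
    Bornology.IsBounded K ∧ (interior K).Nonempty ∧ K = {x | w + L x ∈ C}

theorem mpr_cc (s q : ℕ) (δ : ℝ) (hδ : 0 < δ) : ∃ κ : ℝ, 0 < κ ∧ ∀ (n : ℕ) (K : Set (E n)),
    MPr s q n K → IsCompact K ∧ Convex ℝ K ∧ (interior K).Nonempty ∧ CcW κ δ (ind K) := by
  obtain ⟨A, hA, HA⟩ := mcn_gc s
  obtain ⟨κ, hκ, H⟩ := gconR A δ q hA hδ
  refine ⟨κ, hκ, ?_⟩
  rintro n K ⟨N, C, L, w, hN, hC, hb, hi, hK⟩
  have hG := HA N C hC
  rcases Nat.eq_zero_or_pos n with rfl | hn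
  · have h1 : K = univ := by
      refine eq_univ_of_forall fun x => ?_
      obtain ⟨y, hy⟩ := hi
      rw [Subsingleton.elim x y]
      exact interior_subset hy
    have hc : IsCompact K := by
      rw [h1]
      exact (Set.toFinite _).isCompact
    refine ⟨hc, by rw [h1]; exact convex_univ, hi, ?_⟩
    exact Pool.Agent.R754.KG.cc_zero hδ.le K hc hi
  · obtain ⟨h1, h2, h3⟩ := H n N C L w hn hN hG (hK ▸ hb) (hK ▸ hi)
    rw [← hK] at h1 h2 h3
    exact ⟨h1, h2, hi, h3⟩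

theorem mpr_km (s q : ℕ) : ∃ A : ℝ → ℝ, (∀ δ, 0 < A δ) ∧ ∀ (n : ℕ) (K : Set (E n)),
    MPr s q n K → IsCompact K ∧ Convex ℝ K ∧ (interior K).Nonempty ∧
      ∀ δ : ℝ, 0 < δ → KM (A δ) δ (un K) :=
  km_profile (P := fun n K => MPr s q n K) (mpr_cc s q)

end Pool.Agent.V7H40.MX
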