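import Pool.Agent.N273.KM.CPA

/-!
# Limits of weights with a Poincare inequality
-/

set_option autoImplicit false

namespace Pool.Agent.V7H40.MX

open MeasureTheory Filter Topology
open scoped ENNReal InnerProductSpace
open Pool.Agent.R751.MB (Eu EW VW Adm LCn AP)

variable {k : ℕ}

theorem int_w {w : Eu (Fin k) → ℝ} (hw : Adm w) {v : Eu (Fin k) → ℝ} (hv : Continuous v) {C : ℝ}
    (hC : ∀ x, |v x| ≤ C * (1 + ‖x‖ ^ 2)) : Integrable fun x => v x * w x := by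
  refine Integrable.mono' (hw.int.const_mul C) (hv.measurable.mul hw.meas).aestronglyMeasurable
    (Eventually.of_forall fun x => ?_)
  rw [norm_mul, Real.norm_eq_abs, Real.norm_of_nonneg (hw.nonneg x), ← mul_assoc]
  exact mul_le_mul_of_nonneg_right (hC x) (hw.nonneg x)

theorem tendsto_int {w : Eu (Fin k) → ℝ} (hw : Adm w) {W : ℕ → Eu (Fin k) → ℝ}
    (hW : ∀ j, Adm (W j)) (hlim : Tendsto (fun j => ∫ x, (1 + ‖x‖ ^ 2) * |W j x - w x|) atTop (𝓝 0))
    {v : Eu (Fin k) → ℝ} (hv : Continuous v) {C : ℝ} (hC : ∀ x, |v x| ≤ C * (1 + ‖x‖ ^ 2)) :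
    Tendsto (fun j => ∫ x, v x * W j x) atTop (𝓝 (∫ x, v x * w x)) := by
  have h1 : ∀ j, |(∫ x, v x * W j x) - ∫ x, v x * w x| ≤
      C * ∫ x, (1 + ‖x‖ ^ 2) * |W j x - w x| := by
    intro j
    rw [← integral_sub (int_w (hW j) hv hC) (int_w hw hv hC), ← integral_const_mul]
    refine (abs_integral_le_integral_abs).trans ?_
    have hI : Integrable fun x => (1 + ‖x‖ ^ 2) * |W j x - w x| := by
      refine Integrable.mono' ((hW j).int.add hw.int) ?_ (Eventually.of_forall fun x => ?_)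
      · have h2 : Measurable fun x : Eu (Fin k) => 1 + ‖x‖ ^ 2 :=
          (by fun_prop : Continuous fun x : Eu (Fin k) => 1 + ‖x‖ ^ 2).measurable
        exact (h2.mul (((hW j).meas.sub hw.meas).abs)).aestronglyMeasurable
      · have h3 : (0 : ℝ) ≤ 1 + ‖x‖ ^ 2 := by positivity
        have h4 := (hW j).nonneg x
        have h5 := hw.nonneg x
        rw [norm_mul, Real.norm_of_nonneg h3, Real.norm_eq_abs, abs_abs]
        change _ ≤ (1 + ‖x‖ ^ 2) * W j x + (1 + ‖x‖ ^ 2) * w x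
        rw [← mul_add]
        refine mul_le_mul_of_nonneg_left ?_ h3
        rw [abs_le]
        constructor <;> linarith
    refine integral_mono ((int_w (hW j) hv hC).sub (int_w hw hv hC)).abs (hI.const_mul C)
      fun x => ?_
    simp only
    rw [← mul_sub, abs_mul, ← mul_assoc]
    exact mul_le_mul_of_nonneg_right (hC x) (abs_nonneg _)
  rw [tendsto_iff_norm_sub_tendsto_zero]
  have h2 : Tendsto (fun j => C * ∫ x, (1 + ‖x‖ ^ 2) * |W j x - w x|) atTop (𝓝 0) := by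
    have := hlim.const_mul C
    rwa [mul_zero] at this
  exact squeeze_zero (fun j => norm_nonneg _) h1 h2

theorem tendsto_EW {w : Eu (Fin k) → ℝ} (hw : Adm w) {W : ℕ → Eu (Fin k) → ℝ}
    (hW : ∀ j, Adm (W j)) (hlim : Tendsto (fun j => ∫ x, (1 + ‖x‖ ^ 2) * |W j x - w x|) atTop (𝓝 0))
    {v : Eu (Fin k) → ℝ} (hv : Continuous v) {C : ℝ} (hC : ∀ x, |v x| ≤ C * (1 + ‖x‖ ^ 2)) :
    Tendsto (fun j => EW (W j) v) atTop (𝓝 (EW w v)) := by
  unfold EW
  have h1 := tendsto_int hw hW hlim (v := fun _ => 1) continuous_const (C := 1) fun x => by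
    rw [abs_one, one_mul]
    nlinarith [sq_nonneg ‖x‖]
  simp only [one_mul] at h1
  exact (tendsto_int hw hW hlim hv hC).div h1 hw.pos.ne'

theorem bd_of {f : Eu (Fin k) → ℝ} {B : ℝ} (h : ∀ x, |f x| ≤ B) (x : Eu (Fin k)) :
    |f x| ≤ B * (1 + ‖x‖ ^ 2) := by
  have h0 : 0 ≤ B := (abs_nonneg _).trans (h x)
  nlinarith [h x, mul_nonneg h0 (sq_nonneg ‖x‖)]

theorem EW_one {w : Eu (Fin k) → ℝ} (hw : Adm w) : EW w (fun _ => 1) = 1 := by
  unfold EW
  simp only [one_mul]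
  exact div_self hw.pos.ne'

/-- variances are bounded by second moments about any point -/
theorem VW_le {w : Eu (Fin k) → ℝ} (hw : Adm w) {v : Eu (Fin k) → ℝ} (hv : Continuous v) {C : ℝ}
    (hC : ∀ x, |v x| ≤ C * (1 + ‖x‖)) (c : ℝ) : VW w v = EW w (fun x => (v x - c) ^ 2) -
      (EW w v - c) ^ 2 := by
  have hC0 : 0 ≤ C := by
    have := (abs_nonneg _).trans (hC 0)
    simpa using this
  have b1 : ∀ x, |v x| ≤ (2 * C) * (1 + ‖x‖ ^ 2) := by
    intro x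
    have h1 := hC x
    nlinarith [mul_nonneg hC0 (sq_nonneg (‖x‖ - 1)), mul_nonneg hC0 (sq_nonneg ‖x‖)]
  have b2 : ∀ x, |v x ^ 2| ≤ (2 * C ^ 2) * (1 + ‖x‖ ^ 2) := by
    intro x
    rw [abs_pow]
    have h1 := pow_le_pow_left₀ (abs_nonneg _) (hC x) 2
    nlinarith [mul_nonneg (sq_nonneg C) (sq_nonneg (‖x‖ - 1))]
  have i1 := int_w hw hv b1
  have i2 : Integrable fun x => v x ^ 2 * w x := int_w hw (v := fun x => v x ^ 2) (hv.pow 2) b2
  have i0 : Integrable fun x => 1 * w x := int_w hw (v := fun _ => 1) continuous_const (C := 1)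
    fun x => by
      rw [abs_one, one_mul]
      nlinarith [sq_nonneg ‖x‖]
  have h1 : ∫ x, (v x - c) ^ 2 * w x = (∫ x, v x ^ 2 * w x) - 2 * c * (∫ x, v x * w x) +
      c ^ 2 * ∫ x, 1 * w x := by
    have i3 : Integrable fun x => v x ^ 2 * w x - 2 * c * (v x * w x) := i2.sub (i1.const_mul _)
    rw [← integral_const_mul, ← integral_const_mul, ← integral_sub i2 (i1.const_mul _),
      ← integral_add i3 (i0.const_mul _)]
    congr 1
    funext x
    ring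
  unfold VW EW
  rw [h1]
  simp only [one_mul]
  have h2 := hw.pos.ne'
  field_simp
  ring

theorem cs (a θ : Eu (Fin k)) : ⟪a, θ⟫_ℝ ^ 2 ≤ ‖a‖ ^ 2 * ‖θ‖ ^ 2 := by
  have h := abs_real_inner_le_norm a θ
  rw [← mul_pow, ← sq_abs]
  exact pow_le_pow_left₀ (abs_nonneg _) h 2

theorem EW_mono' {w u v : Eu (Fin k) → ℝ} (hw : Adm w) (hu : Integrable fun x => u x * w x)
    (hv : Integrable fun x => v x * w x) (h : ∀ x, u x ≤ v x) : EW w u ≤ EW w v := by
  unfold EW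
  refine div_le_div_of_nonneg_right ?_ hw.pos.le
  exact integral_mono hu hv fun x => mul_le_mul_of_nonneg_right (h x) (hw.nonneg x)

theorem inner_bd (θ : Eu (Fin k)) (x : Eu (Fin k)) : |⟪x, θ⟫_ℝ| ≤ ‖θ‖ * (1 + ‖x‖) := by
  have h := abs_real_inner_le_norm x θ
  nlinarith [norm_nonneg θ, norm_nonneg x]

/-- the second moment about the mean in isotropic position -/
theorem iso_mom {w : Eu (Fin k) → ℝ} (hw : Adm w)
    (hiso : ∀ θ, VW w (fun x => ⟪x, θ⟫_ℝ) = ‖θ‖ ^ 2) :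
    ∃ a : Eu (Fin k), EW w (fun x => ‖x - a‖ ^ 2) = k := by
  obtain ⟨a, ha⟩ : ∃ a : Eu (Fin k), ∀ i, a i = EW w fun x => x i :=
    ⟨WithLp.toLp 2 fun i => EW w fun x => x i, fun i => rfl⟩
  refine ⟨a, ?_⟩
  have hx : ∀ (i : Fin k) (x : Eu (Fin k)), ⟪x, EuclideanSpace.single i (1 : ℝ)⟫_ℝ = x i := by
    intro i x
    rw [EuclideanSpace.inner_single_right]
    simp
  have h1 : ∀ i, EW w (fun x => (x i - a i) ^ 2) = 1 := by
    intro i
    have h2 := hiso (EuclideanSpace.single i 1)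
    have h3 := VW_le hw (v := fun x => ⟪x, EuclideanSpace.single i (1 : ℝ)⟫_ℝ) (by fun_prop)
      (inner_bd _) (a i)
    rw [h2] at h3
    simp only [hx] at h3
    rw [ha i, sub_self] at h3
    rw [ha i]
    have h4 : ‖(EuclideanSpace.single i (1 : ℝ) : Eu (Fin k))‖ = 1 := by simp
    rw [h4] at h3
    linarith
  have h2 : (fun x : Eu (Fin k) => ‖x - a‖ ^ 2) = fun x => ∑ i, (x i - a i) ^ 2 := by
    funext x
    rw [EuclideanSpace.norm_sq_eq]
    refine Finset.sum_congr rfl fun i _ => ?_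
    rw [Real.norm_eq_abs, sq_abs]
    rfl
  rw [h2]
  have h3 : EW w (fun x => ∑ i, (x i - a i) ^ 2) = ∑ i, EW w (fun x => (x i - a i) ^ 2) := by
    unfold EW
    simp only [Finset.sum_mul]
    rw [integral_finsetSum, Finset.sum_div]
    intro i _
    refine int_w hw (v := fun x => (x i - a i) ^ 2) (by fun_prop) (C := 2 * (1 + |a i|) ^ 2)
      fun x => ?_
    have h5 : |x i| ≤ ‖x‖ := by
      have := PiLp.norm_apply_le x i
      simpa using this
    have h6 : |x i - a i| ≤ ‖x‖ + |a i| := (abs_sub _ _).trans (by linarith)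
    rw [abs_pow]
    have h7 := pow_le_pow_left₀ (abs_nonneg _) h6 2
    have h8 := abs_nonneg (a i)
    have h9 := norm_nonneg x
    nlinarith [sq_nonneg (‖x‖ - |a i|), mul_nonneg h8 h8, mul_nonneg (mul_nonneg h8 h8) (sq_nonneg ‖x‖), mul_nonneg h8 (sq_nonneg ‖x‖)]
  rw [h3]
  simp only [h1]
  simp

/-- limits of weights -/
theorem ap_limit {A : ℝ} (hA : 0 < A) {w : Eu (Fin k) → ℝ} (hw : Adm w)
    (hiso : ∀ θ, VW w (fun x => ⟪x, θ⟫_ℝ) = ‖θ‖ ^ 2) (W : ℕ → Eu (Fin k) → ℝ)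
    (hW : ∀ j, AP A (W j))
    (hlim : Tendsto (fun j => ∫ x, (1 + ‖x‖ ^ 2) * |W j x - w x|) atTop (𝓝 0)) :
    AP (A * (k + 1)) w := by
  obtain ⟨a, ha⟩ := iso_mom hw hiso
  have hadm := fun j => (hW j).adm
  have ba : ∀ x : Eu (Fin k), |‖x - a‖ ^ 2| ≤ (2 * (1 + ‖a‖) ^ 2) * (1 + ‖x‖ ^ 2) := by
    intro x
    rw [abs_of_nonneg (by positivity)]
    have h6 := norm_sub_le x a
    have h7 := pow_le_pow_left₀ (norm_nonneg _) h6 2
    have h8 := norm_nonneg a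
    nlinarith [sq_nonneg (‖x‖ - ‖a‖), mul_nonneg h8 h8, mul_nonneg (mul_nonneg h8 h8) (sq_nonneg ‖x‖), mul_nonneg h8 (sq_nonneg ‖x‖)]
  have h1 := tendsto_EW hw hadm hlim (v := fun x => ‖x - a‖ ^ 2) (by fun_prop) ba
  rw [ha] at h1
  have h2 : ∀ᶠ j in atTop, EW (W j) (fun x => ‖x - a‖ ^ 2) < k + 1 :=
    h1.eventually (gt_mem_nhds (by linarith))
  have h3 : ∀ᶠ j in atTop, Pool.Agent.N483.KM.PS (A * (k + 1)) (W j) := by
    filter_upwards [h2] with j hj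
    refine Pool.Agent.N273.KM.t_CPS _ A (k + 1) (W j) hA.le (by positivity) (hW j) fun θ => ?_
    rw [VW_le (hadm j) (v := fun x => ⟪x, θ⟫_ℝ) (by fun_prop) (inner_bd θ) ⟪a, θ⟫_ℝ]
    have h4 : EW (W j) (fun x => (⟪x, θ⟫_ℝ - ⟪a, θ⟫_ℝ) ^ 2) ≤
        EW (W j) (fun x => ‖x - a‖ ^ 2 * ‖θ‖ ^ 2) := by
      refine EW_mono' (hadm j) ?_ ?_ fun x => ?_
      · refine int_w (hadm j) (v := fun x => (⟪x, θ⟫_ℝ - ⟪a, θ⟫_ℝ) ^ 2) (by fun_prop)
          (C := (2 * (1 + ‖a‖) ^ 2) * ‖θ‖ ^ 2) fun x => ?_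
        have h5 := cs (x - a) θ
        rw [inner_sub_left] at h5
        rw [abs_of_nonneg (sq_nonneg _)]
        have h6 := ba x
        rw [abs_of_nonneg (by positivity)] at h6
        calc _ ≤ _ := h5
          _ ≤ ((2 * (1 + ‖a‖) ^ 2) * (1 + ‖x‖ ^ 2)) * ‖θ‖ ^ 2 :=
            mul_le_mul_of_nonneg_right h6 (sq_nonneg _)
          _ = _ := by ring
      · refine int_w (hadm j) (v := fun x => ‖x - a‖ ^ 2 * ‖θ‖ ^ 2) (by fun_prop)
          (C := (2 * (1 + ‖a‖) ^ 2) * ‖θ‖ ^ 2) fun x => ?_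
        rw [abs_of_nonneg (by positivity)]
        have h6 := ba x
        rw [abs_of_nonneg (by positivity)] at h6
        calc _ ≤ ((2 * (1 + ‖a‖) ^ 2) * (1 + ‖x‖ ^ 2)) * ‖θ‖ ^ 2 :=
            mul_le_mul_of_nonneg_right h6 (sq_nonneg _)
          _ = _ := by ring
      · have h5 := cs (x - a) θ
        rwa [inner_sub_left] at h5
    have h5 : EW (W j) (fun x => ‖x - a‖ ^ 2 * ‖θ‖ ^ 2) =
        EW (W j) (fun x => ‖x - a‖ ^ 2) * ‖θ‖ ^ 2 := by
      have h6 := Pool.Agent.N273.KM.CPAx.EW_const_mul (W j) (fun x => ‖x - a‖ ^ 2) (‖θ‖ ^ 2)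
      rw [mul_comm, ← h6]
      congr 1
      funext x
      ring
    rw [h5] at h4
    have h6 := mul_le_mul_of_nonneg_right hj.le (sq_nonneg ‖θ‖)
    have h7 : 0 ≤ (EW (W j) (fun x => ⟪x, θ⟫_ℝ) - ⟪a, θ⟫_ℝ) ^ 2 := sq_nonneg _
    linarith
  refine Pool.Agent.N273.KM.t_CAP _ (A * (k + 1)) 1 _ w (by positivity) one_pos (by rw [mul_one])
    ⟨hw, fun f hf hb hd => ?_⟩ fun θ => by rw [hiso, one_mul]
  obtain ⟨B, hB⟩ := hb
  obtain ⟨L, hL⟩ := hd
  have t1 := tendsto_EW hw hadm hlim (v := f) hf.continuous (bd_of hB)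
  have t2 := tendsto_EW hw hadm hlim (v := fun x => f x ^ 2) (hf.continuous.pow 2)
    (bd_of (B := B ^ 2) fun x => by
      rw [abs_pow]
      exact pow_le_pow_left₀ (abs_nonneg _) (hB x) 2)
  have t3 := tendsto_EW hw hadm hlim (v := fun x => ‖fderiv ℝ f x‖ ^ 2)
    ((hf.continuous_fderiv one_ne_zero).norm.pow 2)
    (bd_of (B := L ^ 2) fun x => by
      rw [abs_of_nonneg (by positivity)]
      exact pow_le_pow_left₀ (norm_nonneg _) (hL x) 2)
  have t4 : Tendsto (fun j => VW (W j) f) atTop (𝓝 (VW w f)) := by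
    unfold VW
    exact t2.sub (t1.pow 2)
  refine le_of_tendsto_of_tendsto t4 (t3.const_mul (A * (k + 1))) ?_
  filter_upwards [h3] with j hj
  exact hj.poi f hf ⟨B, hB⟩ ⟨L, hL⟩

end Pool.Agent.V7H40.MX
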