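import Pool.Agent.V7H40.MX.Lim
import Pool.Agent.N717.KM.Grad
import Pool.Agent.N277.KM.GPL
import Pool.Agent.N483.KM.StmY
import Pool.Agent.R751.MB.Mix

/-!
# Cones of bounded dimension
-/

set_option autoImplicit false

namespace Pool.Agent.V7H40.MX

open MeasureTheory Filter Topology
open scoped ENNReal InnerProductSpace
open Pool.Agent.R751.MB (Eu EW VW Adm LCn AP)
open Pool.Agent.N483.KM (PC Pf wc GC S_GDD)

variable {k : ℕ}

/-- approximants -/
noncomputable def ap (C : Set (Eu (Fin k))) (f : Eu (Fin k) →ₗ[ℝ] ℝ) (j : ℕ) (x : Eu (Fin k)) : ℝ :=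
  Real.exp (-f x - ((j : ℝ) + 1) * Metric.infDist x C ^ 2)

theorem near {C : Set (Eu (Fin k))} (hC : PC C) (x : Eu (Fin k)) :
    ∃ c ∈ C, Metric.infDist x C = ‖x - c‖ := by
  obtain ⟨c, hc, h⟩ := hC.closed.exists_infDist_eq_dist ⟨0, Pool.Agent.N277.KM.zero_mem hC⟩ x
  exact ⟨c, hc, by rw [h, dist_eq_norm]⟩

theorem infDist_conv {C : Set (Eu (Fin k))} (hC : PC C) (x y : Eu (Fin k)) {t : ℝ} (h0 : 0 < t)
    (h1 : t < 1) : Metric.infDist ((1 - t) • x + t • y) C ≤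
      (1 - t) * Metric.infDist x C + t * Metric.infDist y C := by
  obtain ⟨c, hc, hx⟩ := near hC x
  obtain ⟨c', hc', hy⟩ := near hC y
  have h2 : (1 - t) • c + t • c' ∈ C := hC.conv hc hc' (by linarith) h0.le (by ring)
  refine (Metric.infDist_le_dist_of_mem h2).trans ?_
  rw [dist_eq_norm, hx, hy]
  have h3 : (1 - t) • x + t • y - ((1 - t) • c + t • c') = (1 - t) • (x - c) + t • (y - c') := by
    rw [smul_sub, smul_sub]
    abel
  rw [h3]
  refine (norm_add_le _ _).trans (le_of_eq ?_)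
  rw [norm_smul, norm_smul, Real.norm_of_nonneg h0.le, Real.norm_of_nonneg (by linarith)]

theorem ap_cont (C : Set (Eu (Fin k))) (f : Eu (Fin k) →ₗ[ℝ] ℝ) (j : ℕ) : Continuous (ap C f j) := by
  have h1 : Continuous f := f.continuous_of_finiteDimensional
  have h2 : Continuous fun x : Eu (Fin k) => Metric.infDist x C := Metric.continuous_infDist_pt C
  unfold ap
  fun_prop

theorem ap_lc {C : Set (Eu (Fin k))} (hC : PC C) (f : Eu (Fin k) →ₗ[ℝ] ℝ) (j : ℕ) :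
    LCn (ap C f j) := by
  intro x y t h0 h1
  unfold ap
  rw [← Real.exp_mul, ← Real.exp_mul, ← Real.exp_add, Real.exp_le_exp, map_add, map_smul, map_smul]
  have h2 := infDist_conv hC x y h0 h1
  have h3 : Metric.infDist ((1 - t) • x + t • y) C ^ 2 ≤
      (1 - t) * Metric.infDist x C ^ 2 + t * Metric.infDist y C ^ 2 := by
    have h4 := pow_le_pow_left₀ Metric.infDist_nonneg h2 2
    nlinarith [mul_nonneg (mul_nonneg h0.le (by linarith : (0 : ℝ) ≤ 1 - t))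
      (sq_nonneg (Metric.infDist x C - Metric.infDist y C))]
  have h5 := mul_le_mul_of_nonneg_left h3 (by positivity : (0 : ℝ) ≤ (j : ℝ) + 1)
  simp only [smul_eq_mul]
  linarith

theorem exp_poly {a : ℝ} (ha : 0 < a) (m : ℕ) : ∃ M : ℝ, 0 ≤ M ∧ ∀ t : ℝ, 0 ≤ t →
    Real.exp (-(a * t)) ≤ M * ((1 + t) ^ m)⁻¹ := by
  refine ⟨m.factorial * Real.exp a / a ^ m, by positivity, fun t ht => ?_⟩
  have h1 := Real.pow_div_factorial_le_exp (a * (1 + t)) (by positivity) m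
  have h2 : 0 < (1 + t) ^ m := by positivity
  rw [← div_eq_mul_inv, le_div_iff₀ h2, Real.exp_neg, inv_mul_le_iff₀ (Real.exp_pos _),
    mul_div_assoc']
  rw [le_div_iff₀ (by positivity)]
  rw [div_le_iff₀ (by positivity), mul_pow, mul_add, mul_one, Real.exp_add] at h1
  linarith

theorem int_exp {a : ℝ} (ha : 0 < a) :
    Integrable fun x : Eu (Fin k) => (1 + ‖x‖ ^ 2) * Real.exp (-(a * ‖x‖)) := by
  obtain ⟨M, hM, h⟩ := exp_poly ha (k + 3)
  have h1 : Integrable fun x : Eu (Fin k) => (1 + ‖x‖) ^ (-((k : ℝ) + 1)) :=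
    integrable_one_add_norm (by rw [finrank_euclideanSpace_fin]; linarith)
  refine (h1.const_mul M).mono' (by fun_prop : Continuous fun x : Eu (Fin k) =>
    (1 + ‖x‖ ^ 2) * Real.exp (-(a * ‖x‖))).aestronglyMeasurable (Eventually.of_forall fun x => ?_)
  rw [Real.norm_of_nonneg (by positivity)]
  have h2 := h ‖x‖ (norm_nonneg x)
  have h3 : (1 + ‖x‖) ^ (-((k : ℝ) + 1)) = ((1 + ‖x‖) ^ (k + 1))⁻¹ := by
    rw [Real.rpow_neg (by positivity)]
    congr 1
    have : (k : ℝ) + 1 = ((k + 1 : ℕ) : ℝ) := by push_cast; ring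
    rw [this, Real.rpow_natCast]
  rw [h3]
  have h4 : ((1 + ‖x‖) ^ (k + 3))⁻¹ = ((1 + ‖x‖) ^ (k + 1))⁻¹ * ((1 + ‖x‖) ^ 2)⁻¹ := by
    rw [← mul_inv, ← pow_add]
  have h5 : (1 + ‖x‖ ^ 2) * ((1 + ‖x‖) ^ 2)⁻¹ ≤ 1 := by
    rw [mul_inv_le_iff₀ (by positivity)]
    nlinarith [norm_nonneg x]
  calc (1 + ‖x‖ ^ 2) * Real.exp (-(a * ‖x‖)) ≤ (1 + ‖x‖ ^ 2) * (M * ((1 + ‖x‖) ^ (k + 3))⁻¹) :=
        mul_le_mul_of_nonneg_left h2 (by positivity)
    _ = M * ((1 + ‖x‖) ^ (k + 1))⁻¹ * ((1 + ‖x‖ ^ 2) * ((1 + ‖x‖) ^ 2)⁻¹) := by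
        rw [h4]
        ring
    _ ≤ M * ((1 + ‖x‖) ^ (k + 1))⁻¹ * 1 := mul_le_mul_of_nonneg_left h5 (by positivity)
    _ = _ := mul_one _

/-- a common bound -/
theorem ap_bd {C : Set (Eu (Fin k))} (hC : PC C) {f : Eu (Fin k) →ₗ[ℝ] ℝ} (hf : Pf C f) :
    ∃ a M : ℝ, 0 < a ∧ 0 ≤ M ∧ ∀ j x, ap C f j x ≤ M * Real.exp (-(a * ‖x‖)) := by
  obtain ⟨a, ha, h⟩ := Pool.Agent.N717.KM.lower hC hf
  obtain ⟨f', hf'⟩ : ∃ f' : Eu (Fin k) →L[ℝ] ℝ, f' = LinearMap.toContinuousLinearMap f := ⟨_, rfl⟩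
  have hff : ∀ x, f x = f' x := fun x => by rw [hf']; rfl
  refine ⟨a, Real.exp ((a + ‖f'‖) ^ 2 / 4), ha, (Real.exp_pos _).le, fun j x => ?_⟩
  obtain ⟨c, hc, hx⟩ := near hC x
  unfold ap
  rw [← Real.exp_add, Real.exp_le_exp, hx]
  have h1 := h c hc
  have h2 : -f' (x - c) ≤ ‖f'‖ * ‖x - c‖ := by
    have h3 := f'.le_opNorm (x - c)
    rw [Real.norm_eq_abs] at h3
    linarith [neg_abs_le (f' (x - c))]
  have h4 : f x = f c + f' (x - c) := by
    rw [← hff, map_sub]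
    ring
  have h5 : ‖x‖ ≤ ‖c‖ + ‖x - c‖ := by
    have := norm_add_le c (x - c)
    rwa [add_sub_cancel] at this
  have h6 := norm_nonneg (x - c)
  have h7 : (0 : ℝ) ≤ j := Nat.cast_nonneg j
  rw [h4]
  nlinarith [sq_nonneg ((a + ‖f'‖) / 2 - ‖x - c‖), mul_nonneg h7 (sq_nonneg ‖x - c‖),
    mul_le_mul_of_nonneg_left h5 ha.le]

theorem wc_meas {C : Set (Eu (Fin k))} (hC : PC C) (f : Eu (Fin k) →ₗ[ℝ] ℝ) :
    Measurable (wc C f) := by
  have h1 : Continuous f := f.continuous_of_finiteDimensional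
  exact (by fun_prop : Continuous fun x => Real.exp (-f x)).measurable.indicator
    hC.closed.measurableSet

theorem wc_nonneg (C : Set (Eu (Fin k))) (f : Eu (Fin k) →ₗ[ℝ] ℝ) (x : Eu (Fin k)) :
    0 ≤ wc C f x := Set.indicator_nonneg (fun _ _ => (Real.exp_pos _).le) x

theorem ap_mem {C : Set (Eu (Fin k))} (f : Eu (Fin k) →ₗ[ℝ] ℝ) (j : ℕ) {x : Eu (Fin k)}
    (hx : x ∈ C) : ap C f j x = wc C f x := by
  unfold ap wc
  rw [Set.indicator_of_mem hx, Metric.infDist_zero_of_mem hx]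
  simp

theorem wc_le (C : Set (Eu (Fin k))) (f : Eu (Fin k) →ₗ[ℝ] ℝ) (j : ℕ) (x : Eu (Fin k)) :
    wc C f x ≤ ap C f j x := by
  by_cases hx : x ∈ C
  · rw [ap_mem f j hx]
  · unfold wc
    rw [Set.indicator_of_notMem hx]
    exact (Real.exp_pos _).le

theorem wc_pos {C : Set (Eu (Fin k))} (hC : PC C) {f : Eu (Fin k) →ₗ[ℝ] ℝ}
    (hi : Integrable (wc C f)) : 0 < ∫ x, wc C f x := by
  rw [integral_pos_iff_support_of_nonneg (wc_nonneg C f) hi]
  have h1 : C ⊆ Function.support (wc C f) := by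
    intro x hx
    rw [Function.mem_support]
    unfold wc
    rw [Set.indicator_of_mem hx]
    exact (Real.exp_pos _).ne'
  exact (isOpen_interior.measure_pos volume hC.int).trans_le
    (measure_mono (interior_subset.trans h1))

theorem wc_adm {C : Set (Eu (Fin k))} (hC : PC C) {f : Eu (Fin k) →ₗ[ℝ] ℝ} (hf : Pf C f) :
    Adm (wc C f) := by
  obtain ⟨a, M, ha, hM, h⟩ := ap_bd hC hf
  have hb : ∀ x, wc C f x ≤ M * Real.exp (-(a * ‖x‖)) := fun x => (wc_le C f 0 x).trans (h 0 x)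
  have h1 : Integrable fun x => (1 + ‖x‖ ^ 2) * wc C f x := by
    refine ((int_exp (k := k) ha).const_mul M).mono' ((by fun_prop : Continuous
      fun x : Eu (Fin k) => 1 + ‖x‖ ^ 2).measurable.mul (wc_meas hC f)).aestronglyMeasurable
      (Eventually.of_forall fun x => ?_)
    rw [Real.norm_of_nonneg (mul_nonneg (by positivity) (wc_nonneg C f x))]
    calc _ ≤ (1 + ‖x‖ ^ 2) * (M * Real.exp (-(a * ‖x‖))) :=
          mul_le_mul_of_nonneg_left (hb x) (by positivity)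
      _ = _ := by ring
  refine ⟨wc_nonneg C f, h1, wc_pos hC ?_, wc_meas hC f⟩
  refine h1.mono' (wc_meas hC f).aestronglyMeasurable (Eventually.of_forall fun x => ?_)
  rw [Real.norm_of_nonneg (wc_nonneg C f x)]
  nlinarith [wc_nonneg C f x, mul_nonneg (sq_nonneg ‖x‖) (wc_nonneg C f x)]

theorem ap_adm {C : Set (Eu (Fin k))} (hC : PC C) {f : Eu (Fin k) →ₗ[ℝ] ℝ} (hf : Pf C f) (j : ℕ) :
    Adm (ap C f j) := by
  obtain ⟨a, M, ha, hM, h⟩ := ap_bd hC hf
  have h1 : Integrable fun x => (1 + ‖x‖ ^ 2) * ap C f j x := by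
    refine ((int_exp (k := k) ha).const_mul M).mono' ((by fun_prop : Continuous
      fun x : Eu (Fin k) => 1 + ‖x‖ ^ 2).measurable.mul
        (ap_cont C f j).measurable).aestronglyMeasurable (Eventually.of_forall fun x => ?_)
    have h0 : 0 ≤ ap C f j x := (Real.exp_pos _).le
    rw [Real.norm_of_nonneg (mul_nonneg (by positivity) h0)]
    calc _ ≤ (1 + ‖x‖ ^ 2) * (M * Real.exp (-(a * ‖x‖))) :=
          mul_le_mul_of_nonneg_left (h j x) (by positivity)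
      _ = _ := by ring
  refine ⟨fun x => (Real.exp_pos _).le, h1, ?_, (ap_cont C f j).measurable⟩
  have hi : Integrable (ap C f j) := by
    refine h1.mono' (ap_cont C f j).aestronglyMeasurable (Eventually.of_forall fun x => ?_)
    have h0 : 0 ≤ ap C f j x := (Real.exp_pos _).le
    rw [Real.norm_of_nonneg h0]
    nlinarith [mul_nonneg (sq_nonneg ‖x‖) h0]
  exact ((wc_adm hC hf).pos).trans_le (integral_mono (by
    have h2 := (wc_adm hC hf).int
    refine h2.mono' (wc_meas hC f).aestronglyMeasurable (Eventually.of_forall fun x => ?_)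
    rw [Real.norm_of_nonneg (wc_nonneg C f x)]
    nlinarith [wc_nonneg C f x, mul_nonneg (sq_nonneg ‖x‖) (wc_nonneg C f x)]) hi fun x =>
    wc_le C f j x)

theorem ap_tendsto {C : Set (Eu (Fin k))} (hC : PC C) (f : Eu (Fin k) →ₗ[ℝ] ℝ) (x : Eu (Fin k)) :
    Tendsto (fun j => ap C f j x) atTop (𝓝 (wc C f x)) := by
  by_cases hx : x ∈ C
  · simp only [ap_mem f _ hx]
    exact tendsto_const_nhds
  · have h1 : 0 < Metric.infDist x C :=
      (hC.closed.notMem_iff_infDist_pos ⟨0, Pool.Agent.N277.KM.zero_mem hC⟩).1 hx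
    unfold wc ap
    rw [Set.indicator_of_notMem hx]
    refine Real.tendsto_exp_atBot.comp ?_
    have h2 : Tendsto (fun j : ℕ => ((j : ℝ) + 1) * Metric.infDist x C ^ 2) atTop atTop :=
      (tendsto_atTop_add_const_right _ 1 tendsto_natCast_atTop_atTop).atTop_mul_const
        (by positivity)
    exact tendsto_atBot_add_const_left _ (-f x) (tendsto_neg_atTop_atBot.comp h2)

theorem ap_lim {C : Set (Eu (Fin k))} (hC : PC C) {f : Eu (Fin k) →ₗ[ℝ] ℝ} (hf : Pf C f) :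
    Tendsto (fun j => ∫ x, (1 + ‖x‖ ^ 2) * |ap C f j x - wc C f x|) atTop (𝓝 0) := by
  obtain ⟨a, M, ha, hM, h⟩ := ap_bd hC hf
  have h0 : (0 : ℝ) = ∫ _ : Eu (Fin k), (0 : ℝ) := by simp
  rw [h0]
  refine tendsto_integral_of_dominated_convergence
    (fun x => M * ((1 + ‖x‖ ^ 2) * Real.exp (-(a * ‖x‖)))) (fun j => ?_)
    ((int_exp (k := k) ha).const_mul M) (fun j => Eventually.of_forall fun x => ?_)
    (Eventually.of_forall fun x => ?_)
  · have h2 : Measurable fun x : Eu (Fin k) => 1 + ‖x‖ ^ 2 :=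
      (by fun_prop : Continuous fun x : Eu (Fin k) => 1 + ‖x‖ ^ 2).measurable
    exact (h2.mul (((ap_cont C f j).measurable.sub (wc_meas hC f)).abs)).aestronglyMeasurable
  · have h1 : |ap C f j x - wc C f x| ≤ M * Real.exp (-(a * ‖x‖)) := by
      rw [abs_of_nonneg (by linarith [wc_le C f j x])]
      linarith [h j x, wc_nonneg C f x]
    rw [norm_mul, Real.norm_of_nonneg (by positivity), Real.norm_eq_abs, abs_abs]
    calc _ ≤ (1 + ‖x‖ ^ 2) * (M * Real.exp (-(a * ‖x‖))) :=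
          mul_le_mul_of_nonneg_left h1 (by positivity)
      _ = _ := by ring
  · have h1 := ((ap_tendsto hC f x).sub_const (wc C f x)).abs.const_mul (1 + ‖x‖ ^ 2)
    rwa [sub_self, abs_zero, mul_zero] at h1

/-- cones of bounded dimension -/
theorem small (hD : S_GDD) (s : ℕ) : ∃ A : ℝ, 0 < A ∧ ∀ (k : ℕ), k ≤ s →
    ∀ C : Set (Eu (Fin k)), PC C → GC A C := by
  obtain ⟨A, hA, H⟩ := hD s
  refine ⟨A * (s + 1), by positivity, fun k hk C hC => ⟨hC, fun f hf => ?_⟩⟩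
  have hadm := wc_adm hC hf
  obtain ⟨S, hS, -⟩ := Pool.Agent.R751.MB.wht (Fin k) (wc C f) hadm
  obtain ⟨e, he⟩ : ∃ e : Eu (Fin k) ≃ₗ[ℝ] Eu (Fin k), e = S.toLinearEquiv := ⟨_, rfl⟩
  have heS : ∀ x, e x = S x := fun x => by rw [he]; rfl
  have hC' := Pool.Agent.N277.KM.pc_lin e hC
  obtain ⟨f', hf'⟩ : ∃ f' : Eu (Fin k) →ₗ[ℝ] ℝ, f' = f.comp e.symm.toLinearMap := ⟨_, rfl⟩
  have hff : ∀ x, f' (e x) = f x := fun x => by
    rw [hf']
    simp
  have hPf : Pf (e '' C) f' := by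
    rintro _ ⟨x, hx, rfl⟩ hne
    rw [hff]
    exact hf x hx fun h0 => hne (by rw [h0, map_zero])
  have hw : (fun z => wc C f (e.symm z)) = wc (e '' C) f' := by
    funext z
    obtain ⟨x, rfl⟩ := e.surjective z
    rw [e.symm_apply_apply]
    unfold wc
    by_cases hx : x ∈ C
    · rw [Set.indicator_of_mem hx, Set.indicator_of_mem (Set.mem_image_of_mem e hx), hff]
    · rw [Set.indicator_of_notMem hx, Set.indicator_of_notMem]
      rintro ⟨y, hy, hyx⟩
      rw [e.injective hyx] at hy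
      exact hx hy
  have hadm' : Adm (wc (e '' C) f') := wc_adm hC' hPf
  have hiso : ∀ θ, VW (wc (e '' C) f') (fun x => ⟪x, θ⟫_ℝ) = ‖θ‖ ^ 2 := by
    intro θ
    rw [← hw, Pool.Agent.R751.MB.LinAux.VW_comp, ← hS θ]
    simp only [heS]
  have key : AP (A * (k + 1)) (wc (e '' C) f') := by
    refine ap_limit hA hadm' hiso (ap (e '' C) f') (fun j => ?_) (ap_lim hC' hPf)
    have h1 := ap_adm hC' hPf j
    exact H k hk ∅ (ap (e '' C) f' j) ⟨h1.nonneg, h1.int, h1.pos, h1.meas⟩ (ap_lc hC' f' j)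
      (ap_cont _ _ _) (fun x => Real.exp_pos _) (fun g hg => absurd hg (Set.notMem_empty g))
  have key2 := Pool.Agent.R751.MB.lin (Fin k) (Fin k) _ e.symm _ key
  have h2 : (fun z => wc (e '' C) f' (e.symm.symm z)) = wc C f := by
    rw [← hw]
    funext z
    simp
  rw [h2] at key2
  refine key2.mono ?_
  have : (k : ℝ) ≤ s := by exact_mod_cast hk
  nlinarith

end Pool.Agent.V7H40.MX
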